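import Pool.Agent.W345.VO.Stm

/-!
Project VO (helper345), subtask VO-VIR: the Virasoro relations.
-/

set_option autoImplicit false

namespace Pool.Agent.W766.VO.Vir

open Pool.Agent.W345.VO

theorem bc_zero_right (r : ℤ) : bc r 0 = 1 := by
  simp [bc]

theorem bc_one_right (r : ℤ) : bc r 1 = r := by
  simp [bc]

theorem bc_zero_left (i : ℕ) (hi : i ≠ 0) : bc 0 i = 0 := by
  unfold bc
  obtain ⟨j, rfl⟩ := Nat.exists_eq_succ_of_ne_zero hi
  simp

theorem bc_three (r : ℤ) : bc r 3 = (r : ℂ) * (r - 1) * (r - 2) / 6 := by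
  unfold bc
  have h := Ring.descPochhammer_eq_factorial_smul_choose r 3
  have h2 : (descPochhammer ℤ 3).smeval r = r * (r - 1) * (r - 2) := by
    rw [← Polynomial.eval_eq_smeval, descPochhammer_succ_eval, descPochhammer_succ_eval,
      descPochhammer_succ_eval, descPochhammer_zero]
    simp
  rw [h2] at h
  have h3 : r * (r - 1) * (r - 2) = 6 * Ring.choose r 3 := by
    rw [h]
    simp [Nat.factorial]
  have h4 : (r : ℂ) * (r - 1) * (r - 2) = 6 * ((Ring.choose r 3 : ℤ) : ℂ) := by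
    exact_mod_cast h3
  rw [h4]
  ring

theorem vir : S_OM01 → S_OMOM → S_WT01 → S_VIR := by
  intro h01 hoo hwt A hA m n v
  obtain ⟨h0, h1⟩ := h01 A hA
  obtain ⟨h2, h3, h4⟩ := hoo A hA
  have hw := hwt.2.2.2.2.2
  have hone := hA.1
  have hT := hA.2.2.2
  have hB := A.borcherds om om v (m + 1) (n + 1) 0
  have hR : ∑ᶠ i : ℕ, ((-1 : ℂ) ^ i * bc 0 i) •
      (A.Y om (m + 1 + 0 - i) (A.Y om (n + 1 + i) v) -
        (-1 : ℂ) ^ (0 : ℤ) • A.Y om (n + 1 + 0 - i) (A.Y om (m + 1 + i) v)) =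
      A.Y om (m + 1) (A.Y om (n + 1) v) - A.Y om (n + 1) (A.Y om (m + 1) v) := by
    rw [finsum_eq_single _ 0]
    · simp [bc_zero_right]
    · intro i hi
      rw [bc_zero_left i hi, mul_zero, zero_smul]
  have hL : ∑ᶠ i : ℕ, bc (m + 1) i • A.Y (A.Y om (0 + i) om) (m + 1 + (n + 1) - i) v =
      ∑ i ∈ Finset.range 4, bc (m + 1) i • A.Y (A.Y om (0 + i) om) (m + 1 + (n + 1) - i) v := by
    apply finsum_eq_sum_of_support_subset
    intro i hi
    rw [Finset.coe_range, Set.mem_Iio]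
    by_contra hcon
    push Not at hcon
    apply hi
    have : A.Y om (0 + (i : ℤ)) om = 0 := h4 _ (by omega)
    show bc (m + 1) i • A.Y (A.Y om (0 + (i : ℤ)) om) (m + 1 + (n + 1) - i) v = 0
    rw [this, map_zero, Pi.zero_apply, LinearMap.zero_apply, smul_zero]
  rw [hR, hL] at hB
  rw [← hB]
  have e0 : A.Y om (0 + ((0 : ℕ) : ℤ)) om = TT om := by
    simp [h0]
  have e1 : A.Y om (0 + ((1 : ℕ) : ℤ)) om = (2 : ℂ) • om := by
    rw [← hw, ← h1]
    simp
  have e2 : A.Y om (0 + ((2 : ℕ) : ℤ)) om = 0 := by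
    rw [← h2]
    simp
  have e3 : A.Y om (0 + ((3 : ℕ) : ℤ)) om = (-5 / 2 : ℂ) • A.one := by
    rw [hone, ← h3]
    simp
  rw [Finset.sum_range_succ, Finset.sum_range_succ, Finset.sum_range_succ,
    Finset.sum_range_succ, Finset.sum_range_zero, e0, e1, e2, e3, hT, bc_zero_right,
    bc_one_right, bc_three]
  have s0 : m + 1 + (n + 1) - ((0 : ℕ) : ℤ) - 1 = m + n + 1 := by push_cast; ring
  have s1 : m + 1 + (n + 1) - ((1 : ℕ) : ℤ) = m + n + 1 := by push_cast; ring
  have s3 : m + 1 + (n + 1) - ((3 : ℕ) : ℤ) = m + n - 1 := by push_cast; ring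
  rw [s0, s1, s3]
  simp only [map_smul, map_zero, Pi.smul_apply, Pi.zero_apply, LinearMap.smul_apply,
    LinearMap.zero_apply, smul_zero, add_zero, zero_add, one_smul, A.one_left]
  have hiff : (m + n - 1 = -1) ↔ (m + n = 0) := by omega
  simp only [hiff]
  split_ifs with h
  · simp only [smul_smul]
    push_cast
    rw [← add_smul]
    congr 1
    · congr 1
      ring
    · congr 1
      ring
  · simp only [smul_zero, zero_smul, add_zero, smul_smul]
    rw [← add_smul]
    congr 1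
    push_cast
    ring

end Pool.Agent.W766.VO.Vir
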